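import Pool.Agent.KSM.P63

/-!
An example: the diagram with two twist regions (double twist links), which shows that the
hypotheses of the theorem can be satisfied.
-/

namespace Pool.Agent.Kashaev.KPH

open Pool.Agent.Kashaev.KP (Dia)
open Pool.Agent.Kashaev.KPW

/-- The word. -/
def W2 : List (SL 2) := [.cup 1, .box 0 0, .box 0 1, .cap 1]

/-- The incidence. -/
def D2 : Dia 2 where
  cf i c := if c = 0 then none else if c = 2 then some 1 else
    if (i = 0 ∧ c = 1) ∨ (i = 1 ∧ c = 3) then some 0 else none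
  ce _ := false
  col f := f = 0

/-- The faces. -/
def lab2 (t g : ℕ) : Option (Fin 2) :=
  if g = 2 ∧ 1 ≤ t ∧ t ≤ 3 then some 1 else if g = 1 ∧ t = 2 then some 0 else none

theorem valid2 : SValid 1 W2 1 := by
  refine ⟨?_, ?_, ?_, ?_, rfl⟩
  · show 1 ≤ 1
    omega
  · show 0 + 2 ≤ 3
    omega
  · show 0 + 2 ≤ 3
    omega
  · show 1 + 2 ≤ 3
    omega

private theorem w0 : wid 1 W2 0 = 1 := rfl
private theorem w1 : wid 1 W2 1 = 3 := rfl
private theorem w2 : wid 1 W2 2 = 3 := rfl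
private theorem w3 : wid 1 W2 3 = 3 := rfl
private theorem w4 : wid 1 W2 4 = 1 := rfl

private theorem len2 : W2.length = 4 := rfl

private theorem adj_cases {P : ℕ → ℕ → ℕ → Prop} (t g g' : ℕ) (x : SL 2) (hx : W2[t]? = some x)
    (hg : g ≤ wid 1 W2 t) (hs : stp x g g') (h00 : P 0 0 0) (h01 : P 0 1 1) (h01' : P 0 1 3)
    (h10 : P 1 0 0) (h12 : P 1 2 2) (h13 : P 1 3 3) (h20 : P 2 0 0) (h22 : P 2 2 2)
    (h23 : P 2 3 3) (h30 : P 3 0 0) (h31 : P 3 1 1) (h33 : P 3 3 1) : P t g g' := by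
  have ht : t < 4 := by
    by_contra h
    rw [List.getElem?_eq_none (by rw [len2]; omega)] at hx
    simp at hx
  interval_cases t
  · have hx' : x = .cup 1 := by simpa [W2] using hx.symm
    subst hx'
    have h : (g ≤ 1 ∧ g' = g) ∨ (1 ≤ g ∧ g' = g + 2) := hs
    rw [w0] at hg
    rcases h with ⟨h1, rfl⟩ | ⟨h1, rfl⟩
    · interval_cases g'
      · exact h00
      · exact h01
    · obtain rfl : g = 1 := by omega
      exact h01'
  · have hx' : x = .box 0 0 := by simpa [W2] using hx.symm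
    subst hx'
    have h : g ≠ 0 + 1 ∧ g' = g := hs
    rw [w1] at hg
    obtain ⟨h1, rfl⟩ := h
    interval_cases g'
    · exact h10
    · exact absurd rfl h1
    · exact h12
    · exact h13
  · have hx' : x = .box 0 1 := by simpa [W2] using hx.symm
    subst hx'
    have h : g ≠ 0 + 1 ∧ g' = g := hs
    rw [w2] at hg
    obtain ⟨h1, rfl⟩ := h
    interval_cases g'
    · exact h20
    · exact absurd rfl h1
    · exact h22
    · exact h23
  · have hx' : x = .cap 1 := by simpa [W2] using hx.symm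
    subst hx'
    have h : (g ≤ 1 ∧ g' = g) ∨ (1 ≤ g' ∧ g = g' + 2) := hs
    rw [w3] at hg
    rcases h with ⟨h1, rfl⟩ | ⟨h1, rfl⟩
    · interval_cases g'
      · exact h30
      · exact h31
    · obtain rfl : g' = 1 := by omega
      exact h33

private theorem place_cases {P : ℕ × ℕ → Prop} (p : ℕ × ℕ) (hp : IsPl W2 p) (h00 : P (0, 0))
    (h01 : P (0, 1)) (h10 : P (1, 0)) (h11 : P (1, 1)) (h12 : P (1, 2)) (h13 : P (1, 3))
    (h20 : P (2, 0)) (h21 : P (2, 1)) (h22 : P (2, 2)) (h23 : P (2, 3)) (h30 : P (3, 0))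
    (h31 : P (3, 1)) (h32 : P (3, 2)) (h33 : P (3, 3)) (h40 : P (4, 0)) (h41 : P (4, 1)) :
    P p := by
  obtain ⟨t, g⟩ := p
  obtain ⟨h1, h2⟩ := hp
  have h1' : t ≤ 4 := h1
  have h2' : g ≤ wid 1 W2 t := h2
  clear h1 h2
  interval_cases t
  · rw [w0] at h2'
    interval_cases g
    · exact h00
    · exact h01
  · rw [w1] at h2'
    interval_cases g
    · exact h10
    · exact h11
    · exact h12
    · exact h13
  · rw [w2] at h2'
    interval_cases g
    · exact h20
    · exact h21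
    · exact h22
    · exact h23
  · rw [w3] at h2'
    interval_cases g
    · exact h30
    · exact h31
    · exact h32
    · exact h33
  · rw [w4] at h2'
    interval_cases g
    · exact h40
    · exact h41

private theorem mk {t g g' : ℕ} {x : SL 2} (hx : W2[t]? = some x) (hg : g ≤ wid 1 W2 t)
    (hs : stp x g g') : Relation.EqvGen (Adj W2) (t, g) (t + 1, g') :=
  Relation.EqvGen.rel _ _ ⟨rfl, hg, x, hx, hs⟩

private theorem sy {a b : ℕ × ℕ} (h : Relation.EqvGen (Adj W2) a b) :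
    Relation.EqvGen (Adj W2) b a := h.symm _ _

private theorem tr {a b c : ℕ × ℕ} (h : Relation.EqvGen (Adj W2) a b)
    (h' : Relation.EqvGen (Adj W2) b c) : Relation.EqvGen (Adj W2) a c := h.trans _ _ _ h'

private theorem e00 : Relation.EqvGen (Adj W2) (0, 0) (1, 0) :=
  mk (x := .cup 1) rfl (by rw [w0]; omega) (Or.inl ⟨by omega, rfl⟩)
private theorem e01 : Relation.EqvGen (Adj W2) (0, 1) (1, 1) :=
  mk (x := .cup 1) rfl (by rw [w0]) (Or.inl ⟨by omega, rfl⟩)
private theorem e01' : Relation.EqvGen (Adj W2) (0, 1) (1, 3) :=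
  mk (x := .cup 1) rfl (by rw [w0]) (Or.inr ⟨by omega, rfl⟩)
private theorem e10 : Relation.EqvGen (Adj W2) (1, 0) (2, 0) :=
  mk (x := .box 0 0) rfl (by rw [w1]; omega) ⟨by omega, rfl⟩
private theorem e12 : Relation.EqvGen (Adj W2) (1, 2) (2, 2) :=
  mk (x := .box 0 0) rfl (by rw [w1]; omega) ⟨by omega, rfl⟩
private theorem e13 : Relation.EqvGen (Adj W2) (1, 3) (2, 3) :=
  mk (x := .box 0 0) rfl (by rw [w1]) ⟨by omega, rfl⟩
private theorem e20 : Relation.EqvGen (Adj W2) (2, 0) (3, 0) :=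
  mk (x := .box 0 1) rfl (by rw [w2]; omega) ⟨by omega, rfl⟩
private theorem e22 : Relation.EqvGen (Adj W2) (2, 2) (3, 2) :=
  mk (x := .box 0 1) rfl (by rw [w2]; omega) ⟨by omega, rfl⟩
private theorem e23 : Relation.EqvGen (Adj W2) (2, 3) (3, 3) :=
  mk (x := .box 0 1) rfl (by rw [w2]) ⟨by omega, rfl⟩
private theorem e30 : Relation.EqvGen (Adj W2) (3, 0) (4, 0) :=
  mk (x := .cap 1) rfl (by rw [w3]; omega) (Or.inl ⟨by omega, rfl⟩)
private theorem e31 : Relation.EqvGen (Adj W2) (3, 1) (4, 1) :=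
  mk (x := .cap 1) rfl (by rw [w3]; omega) (Or.inl ⟨by omega, rfl⟩)
private theorem e33 : Relation.EqvGen (Adj W2) (3, 3) (4, 1) :=
  mk (x := .cap 1) rfl (by rw [w3]) (Or.inr ⟨by omega, rfl⟩)

private theorem rep (p : ℕ × ℕ) (hp : IsPl W2 p) : Relation.EqvGen (Adj W2) p
    (if lab2 p.1 p.2 = some 1 then (1, 2) else if lab2 p.1 p.2 = some 0 then (2, 1) else
      if p.2 = 0 then (0, 0) else (0, 1)) := by
  refine place_cases (P := fun p => Relation.EqvGen (Adj W2) p
    (if lab2 p.1 p.2 = some 1 then (1, 2) else if lab2 p.1 p.2 = some 0 then (2, 1) else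
      if p.2 = 0 then (0, 0) else (0, 1))) p hp ?_ ?_ ?_ ?_ ?_ ?_ ?_ ?_ ?_ ?_ ?_ ?_ ?_ ?_ ?_ ?_
  · exact Relation.EqvGen.refl _
  · exact Relation.EqvGen.refl _
  · exact sy e00
  · exact sy e01
  · exact Relation.EqvGen.refl _
  · exact sy e01'
  · exact sy (tr e00 e10)
  · exact Relation.EqvGen.refl _
  · exact sy e12
  · exact sy (tr e01' e13)
  · exact sy (tr (tr e00 e10) e20)
  · exact tr e31 (sy (tr (tr (tr e01' e13) e23) e33))
  · exact sy (tr e12 e22)
  · exact sy (tr (tr e01' e13) e23)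
  · exact sy (tr (tr (tr e00 e10) e20) e30)
  · exact sy (tr (tr (tr e01' e13) e23) e33)

theorem lab2_lab : Lab W2 D2 lab2 where
  left := rfl
  right := rfl
  adj := by
    rintro ⟨t, g⟩ ⟨t', g'⟩ ⟨h1, h2, x, hx, hs⟩
    have h1' : t' = t + 1 := h1
    subst h1'
    exact adj_cases (P := fun t g g' => lab2 t g = lab2 (t + 1) g') t g g' x hx h2 hs
      rfl rfl rfl rfl rfl rfl rfl rfl rfl rfl rfl rfl
  inj := by
    intro p p' hp hp' he hne
    have h1 := rep p hp
    have h2 := rep p' hp'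
    rw [← he] at h2
    rcases h : lab2 p.1 p.2 with _ | f
    · exact absurd h hne
    · rw [h] at h1 h2
      fin_cases f
      · exact tr h1 (sy h2)
      · exact tr h1 (sy h2)
  out := by
    intro p hp hn
    have h1 := rep p hp
    rw [hn] at h1
    by_cases h : p.2 = 0
    · left
      rw [if_neg (by simp), if_neg (by simp), if_pos h] at h1
      exact h1
    · right
      rw [if_neg (by simp), if_neg (by simp), if_neg h] at h1
      exact h1
  surj := by
    intro f
    fin_cases f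
    · exact ⟨(2, 1), ⟨by show 2 ≤ 4; omega, by show 1 ≤ 3; omega⟩, rfl⟩
    · exact ⟨(1, 2), ⟨by show 1 ≤ 4; omega, by show 2 ≤ 3; omega⟩, rfl⟩
  once := by
    intro i
    fin_cases i
    · refine ⟨1, ⟨0, rfl⟩, ?_⟩
      rintro t ⟨c, h⟩
      rcases t with _ | _ | _ | _ | t <;> simp [W2] at h ⊢
    · refine ⟨2, ⟨0, rfl⟩, ?_⟩
      rintro t ⟨c, h⟩
      rcases t with _ | _ | _ | _ | t <;> simp [W2] at h ⊢
  cf := by
    intro t c i h
    rcases t with _ | _ | _ | _ | t <;> simp [W2] at h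
    · obtain ⟨rfl, rfl⟩ := h
      exact ⟨rfl, rfl, rfl, rfl⟩
    · obtain ⟨rfl, rfl⟩ := h
      exact ⟨rfl, rfl, rfl, rfl⟩
  ce := by
    intro t c i h
    rcases t with _ | _ | _ | _ | t <;> simp [W2] at h
    · obtain ⟨rfl, rfl⟩ := h
      rfl
    · obtain ⟨rfl, rfl⟩ := h
      rfl
  col := by
    intro p f hp
    revert f
    refine place_cases (P := fun p => ∀ f, lab2 p.1 p.2 = some f → D2.col f = odd p.2) p hp
      ?_ ?_ ?_ ?_ ?_ ?_ ?_ ?_ ?_ ?_ ?_ ?_ ?_ ?_ ?_ ?_ <;> intro f hf <;>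
      simp [lab2] at hf <;> subst hf <;> rfl

theorem prime2 : PrimeDia D2 where
  loop := by decide
  cut := by
    intro g f f' h1 h2 h3 h4
    have : f = f' := by
      revert g f f'
      decide
    subst this
    exact Relation.EqvGen.refl _

end Pool.Agent.Kashaev.KPH
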